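import Pool.Agent.H25.LF.Targets

/-!
# MP_04ff0f_nt LargePrimeFactors, BAD: the density of the primes without a large prime factor
-/

set_option autoImplicit false

open Finset Real ArithmeticFunction

namespace Pool.Agent.H56.LF

open Pool.Agent.H25.LF

theorem mem_PR {z : ℝ} {l : ℕ} : l ∈ PR z ↔ (l : ℝ) ≤ z ∧ l.Prime := by
  unfold PR
  rw [mem_filter, mem_Icc]
  constructor
  · rintro ⟨⟨h1, h2⟩, h3⟩
    exact ⟨(Nat.le_floor_iff' (by omega)).1 h2, h3⟩
  · rintro ⟨h1, h2⟩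
    exact ⟨⟨h2.one_lt.le, (Nat.le_floor_iff' h2.ne_zero).2 h1⟩, h2⟩

theorem SL_split (a b c : ℝ) (hab : a ≤ b) (hbc : b ≤ c) (f : ℕ → ℝ) :
    SL a c f = SL a b f + SL b c f := by
  unfold SL
  rw [← sum_union]
  · refine sum_congr ?_ fun _ _ => rfl
    ext l
    rw [mem_union, mem_filter, mem_filter, mem_filter, mem_PR, mem_PR]
    constructor
    · rintro ⟨⟨h1, h2⟩, h3⟩
      by_cases h : (l : ℝ) ≤ b
      · exact Or.inl ⟨⟨h, h2⟩, h3⟩
      · exact Or.inr ⟨⟨h1, h2⟩, not_le.1 h⟩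
    · rintro (⟨⟨h1, h2⟩, h3⟩ | ⟨⟨h1, h2⟩, h3⟩)
      · exact ⟨⟨h1.trans hbc, h2⟩, h3⟩
      · exact ⟨⟨h1, h2⟩, hab.trans_lt h3⟩
  · rw [disjoint_left]
    intro l h1 h2
    rw [mem_filter, mem_PR] at h1 h2
    exact absurd h1.1.1 (not_le.2 h2.2)

theorem bb_pos {θ : ℝ} (h0 : 0 < θ) (h1 : θ < 1) : 0 < bb θ := by
  unfold bb
  split_ifs with h
  · linarith
  · push Not at h
    have h2 : 1 ≤ 1 / (2 * (1 - θ)) := by
      rw [le_div_iff₀ (by linarith)]
      linarith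
    have h3 := Real.log_nonneg h2
    linarith

theorem pf_BAD (hCHB : T_CHB) (hLOW : T_LOW) (hHIG : T_HIG) (hPNT : T_PNT) : T_BAD := by
  intro θ δ h0 h1 hδ
  have hb := bb_pos h0 h1
  obtain ⟨η, hη⟩ : ∃ η : ℝ, η = δ / (2 + bb θ + δ) := ⟨_, rfl⟩
  have hden : 0 < 2 + bb θ + δ := by linarith
  have hη0 : 0 < η := by rw [hη]; positivity
  have hη1 : η < 1 := by rw [hη, div_lt_one hden]; linarith
  have hηe : η * (2 + bb θ + δ) = δ := by rw [hη]; field_simp
  obtain ⟨x1, hx1⟩ := hCHB θ η h0 h1 hη0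
  obtain ⟨x2, hx2⟩ := hPNT η hη0
  -- the bound for the sum over the primes
  obtain ⟨x3, hx3⟩ : ∃ x3 : ℝ, ∀ x : ℝ, x3 ≤ x →
      SL 1 (x ^ θ) (NN x) ≤ (2 * bb θ + 2 * η) * x := by
    by_cases h : θ ≤ 1 / 2
    · obtain ⟨x3, hx3⟩ := hLOW θ η h0 h hη0
      refine ⟨max x3 0, fun x hx => ?_⟩
      have h2 := hx3 x ((le_max_left _ _).trans hx)
      have h3 : 0 ≤ x := (le_max_right _ _).trans hx
      have e : bb θ = θ / 2 := if_pos h
      rw [e]
      nlinarith [mul_nonneg hη0.le h3]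
    · push Not at h
      obtain ⟨x3, hx3⟩ := hLOW (1 / 2) η (by norm_num) le_rfl hη0
      obtain ⟨x4, hx4⟩ := hHIG θ η h.le h1 hη0
      refine ⟨max (max x3 x4) 1, fun x hx => ?_⟩
      have h2 := hx3 x (((le_max_left _ _).trans (le_max_left _ _)).trans hx)
      have h3 := hx4 x (((le_max_right _ _).trans (le_max_left _ _)).trans hx)
      have h4 : 1 ≤ x := (le_max_right _ _).trans hx
      have h5 : (1 : ℝ) ≤ x ^ (1 / 2 : ℝ) := Real.one_le_rpow h4 (by norm_num)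
      have h6 : x ^ (1 / 2 : ℝ) ≤ x ^ θ := Real.rpow_le_rpow_of_exponent_le h4 h.le
      rw [SL_split 1 _ _ h5 h6]
      have e : bb θ = 1 / 4 + Real.log (1 / (2 * (1 - θ))) := if_neg (not_le.2 h)
      rw [e]
      linarith
  refine ⟨max (max x1 (⌈x2⌉₊)) (max (⌈x3⌉₊) 2), fun x hx => ?_⟩
  have g1 : x1 ≤ x := ((le_max_left _ _).trans (le_max_left _ _)).trans hx
  have g2 : x2 ≤ x := Nat.ceil_le.1 (((le_max_right _ _).trans (le_max_left _ _)).trans hx)
  have g3 : x3 ≤ x := Nat.ceil_le.1 (((le_max_left _ _).trans (le_max_right _ _)).trans hx)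
  have g4 : 2 ≤ x := ((le_max_right _ _).trans (le_max_right _ _)).trans hx
  have g4' : (2 : ℝ) ≤ x := by exact_mod_cast g4
  have a1 := hx1 x g1
  have a2 := hx2 x g2
  have a3 := hx3 x g3
  have hL : 0 < Real.log x := Real.log_pos (by linarith)
  have hx0 : (0 : ℝ) < x := by linarith
  have hpi : (1 - η) * x ≤ (Nat.primeCounting x : ℝ) * Real.log x := by
    have h2 := Chebyshev.psi_le_primeCounting_mul_log x
    have h3 := (abs_le.1 a2).1
    linarith
  have hmain : Real.log x * ((BD x θ).card : ℝ) ≤ (bb θ + 2 * η) * x := by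
    nlinarith [mul_pos hη0 hx0]
  have hfin : (bb θ + 2 * η) * x ≤ (bb θ + δ) * ((Nat.primeCounting x : ℝ) * Real.log x) := by
    have h2 : (bb θ + 2 * η) * x ≤ (bb θ + δ) * ((1 - η) * x) := by
      have h3 : bb θ + 2 * η ≤ (bb θ + δ) * (1 - η) := by nlinarith
      have h4 := mul_le_mul_of_nonneg_right h3 hx0.le
      linarith
    exact h2.trans (mul_le_mul_of_nonneg_left hpi (by linarith))
  have hend : Real.log x * ((BD x θ).card : ℝ) ≤
      Real.log x * ((bb θ + δ) * (Nat.primeCounting x : ℝ)) := by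
    calc Real.log x * ((BD x θ).card : ℝ) ≤ (bb θ + 2 * η) * x := hmain
      _ ≤ _ := hfin
      _ = _ := by ring
  exact le_of_mul_le_mul_left hend hL

end Pool.Agent.H56.LF
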