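import Pool.Agent.H28.LF.T1
import Pool.Agent.H67.AG.T3

/-!
Project LF, row LAB: basic facts on the frequency of the bad words.
-/

set_option autoImplicit false

open MeasureTheory ProbabilityTheory Filter Topology Finset

namespace Pool.Agent.H56.LF.LAB

open Pool.Agent.H28.LF
open Pool.Agent.H24.T2 (Pset)
open Pool.Agent.H67.AG (avgP ul Inv)

theorem avg_add (m : ℕ) (F G : ℕ → ℝ) :
    avgP 2 m (fun p => F p + G p) = avgP 2 m F + avgP 2 m G := by
  simp only [avgP, Finset.sum_add_distrib, add_div]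

theorem avg_mono (m : ℕ) (F G : ℕ → ℝ) (h : ∀ p, F p ≤ G p) : avgP 2 m F ≤ avgP 2 m G := by
  unfold avgP
  exact div_le_div_of_nonneg_right (Finset.sum_le_sum fun p _ => h p) (by positivity)

theorem avg_const (m : ℕ) (c : ℝ) (hc : 0 ≤ c) : avgP 2 m (fun _ => c) ≤ c := by
  unfold avgP
  rw [Finset.sum_const, nsmul_eq_mul]
  rcases Nat.eq_zero_or_pos (Pset 2 m).card with h | h
  · rw [h]; simp [hc]
  · rw [mul_comm, mul_div_assoc, div_self (by positivity), mul_one]

theorem avg_nonneg (m : ℕ) (F : ℕ → ℝ) (h : ∀ p, 0 ≤ F p) : 0 ≤ avgP 2 m F := by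
  unfold avgP
  exact div_nonneg (Finset.sum_nonneg fun p _ => h p) (by positivity)

theorem avg_le (m : ℕ) (F : ℕ → ℝ) (c : ℝ) (hc : 0 ≤ c) (h : ∀ p, F p ≤ c) : avgP 2 m F ≤ c :=
  (avg_mono m F (fun _ => c) h).trans (avg_const m c hc)

theorem avg_bdd (F : ℕ → ℝ) (c : ℝ) (h0 : ∀ p, 0 ≤ F p) (h : ∀ p, F p ≤ c) :
    ∃ C, ∀ m, |avgP 2 m F| ≤ C := by
  refine ⟨c, fun m => ?_⟩
  rw [abs_of_nonneg (avg_nonneg m F h0)]
  exact avg_le m F c ((h0 0).trans (h 0)) h

theorem pf_LAB (hU : Pool.Agent.H67.AG.T_UL) : T_LAB := by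
  intro Ω _ P _ T U s q R Bad a a' A hT _ hs ha ha' hA
  obtain ⟨_, umono, uadd, _, uconst⟩ := hU U
  have hs0 : ∀ p, 0 ≤ s p := fun p => by rcases hs p with h | h <;> rw [h] <;> norm_num
  have hs1 : ∀ p, s p ≤ 1 := fun p => by rcases hs p with h | h <;> rw [h] <;> norm_num
  have hAm : MeasurableSet A := hA.1
  have hAi : T ⁻¹' A = A := by simpa using hA.2
  -- iterates
  have hTm : ∀ n : ℕ, Measurable (T^[n]) := fun n => T.measurable.iterate n
  have hTp : ∀ n : ℕ, MeasurePreserving (T^[n]) P P := fun n => hT.iterate n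
  have hAn : ∀ n : ℕ, T^[n] ⁻¹' A = A := by
    intro n
    induction n with
    | zero => rfl
    | succ n ih => rw [Function.iterate_succ, Set.preimage_comp, ih, hAi]
  have hWm : ∀ (b : Ω → Fin q) (p : ℕ), Measurable b → Measurable (Wd T b R p) := by
    intro b p hb
    refine measurable_pi_lambda _ fun i => ?_
    exact hb.comp (hTm _)
  have hEm : ∀ (b : Ω → Fin q) (p : ℕ), Measurable b →
      MeasurableSet {ω | Wd T b R p ω ∈ Bad p} := fun b p hb =>
    hWm b p hb (Set.toFinite (Bad p)).measurableSet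
  -- values
  have v0 : ∀ (b : Ω → Fin q) (B : Set Ω) (p : ℕ),
      0 ≤ s p * P.real (B ∩ {ω | Wd T b R p ω ∈ Bad p}) := fun b B p =>
    mul_nonneg (hs0 p) measureReal_nonneg
  have v1 : ∀ (b : Ω → Fin q) (B : Set Ω) (p : ℕ),
      s p * P.real (B ∩ {ω | Wd T b R p ω ∈ Bad p}) ≤ s p := fun b B p =>
    mul_le_of_le_one_right (hs0 p) measureReal_le_one
  have vb : ∀ (b : Ω → Fin q) (B : Set Ω), ∃ C, ∀ m,
      |avgP 2 m (fun p => s p * P.real (B ∩ {ω | Wd T b R p ω ∈ Bad p}))| ≤ C := fun b B =>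
    avg_bdd _ 1 (v0 b B) fun p => (v1 b B p).trans (hs1 p)
  have sb : ∃ C, ∀ m, |avgP 2 m s| ≤ C := avg_bdd s 1 hs0 hs1
  have cb : ∀ c : ℝ, ∃ C, ∀ _ : ℕ, |c| ≤ C := fun c => ⟨|c|, fun _ => le_rfl⟩
  refine ⟨?_, ?_, ?_, ?_, ?_⟩
  · have := umono (fun _ => 0) _ (cb 0) (vb a A)
      (Eventually.of_forall fun m => avg_nonneg m _ (v0 a A))
    rwa [uconst] at this
  · exact umono _ _ (vb a A) sb (Eventually.of_forall fun m => avg_mono m _ _ (v1 a A))
  · have := umono _ (fun _ => 1) sb (cb 1)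
      (Eventually.of_forall fun m => avg_le m s 1 zero_le_one hs1)
    rwa [uconst] at this
  · intro B hB hAB
    unfold La
    rw [← uadd _ _ (vb a A) (vb a B)]
    congr 1
    funext m
    rw [← avg_add]
    congr 1
    funext p
    rw [← mul_add]
    congr 1
    rw [Set.union_inter_distrib_right]
    exact measureReal_union (hAB.mono Set.inter_subset_left Set.inter_subset_left)
      (hB.1.inter (hEm a p ha))
  · set c : ℝ := R * P.real (A ∩ {ω | a ω ≠ a' ω}) with hc
    have hc0 : 0 ≤ c := by positivity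
    have hD : MeasurableSet {ω | a ω ≠ a' ω} := (measurableSet_eq_fun ha ha').compl
    have key : ∀ p, s p * P.real (A ∩ {ω | Wd T a R p ω ∈ Bad p}) ≤
        s p * P.real (A ∩ {ω | Wd T a' R p ω ∈ Bad p}) + c := by
      intro p
      have hsub : A ∩ {ω | Wd T a R p ω ∈ Bad p} ⊆ (A ∩ {ω | Wd T a' R p ω ∈ Bad p}) ∪
          ⋃ i : Fin R, T^[p * ((i : ℕ) + 1)] ⁻¹' (A ∩ {ω | a ω ≠ a' ω}) := by
        rintro ω ⟨h1, h2⟩
        by_cases h : Wd T a R p ω = Wd T a' R p ω
        · left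
          refine ⟨h1, ?_⟩
          simp only [Set.mem_setOf_eq] at h2 ⊢
          rwa [← h]
        · right
          obtain ⟨i, hi⟩ := Function.ne_iff.1 h
          refine Set.mem_iUnion.2 ⟨i, ?_, hi⟩
          have : ω ∈ T^[p * ((i : ℕ) + 1)] ⁻¹' A := by rw [hAn]; exact h1
          exact this
      have h1 : P.real (A ∩ {ω | Wd T a R p ω ∈ Bad p}) ≤
          P.real (A ∩ {ω | Wd T a' R p ω ∈ Bad p}) + c := by
        refine (measureReal_mono hsub).trans ((measureReal_union_le _ _).trans ?_)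
        gcongr
        refine (measureReal_iUnion_fintype_le _).trans ?_
        rw [hc]
        refine le_of_eq ?_
        rw [Finset.sum_congr rfl fun i _ => ?_, Finset.sum_const, Finset.card_univ,
          Fintype.card_fin, nsmul_eq_mul]
        exact (hTp _).measureReal_preimage (hAm.inter hD).nullMeasurableSet
      calc s p * P.real (A ∩ {ω | Wd T a R p ω ∈ Bad p})
          ≤ s p * (P.real (A ∩ {ω | Wd T a' R p ω ∈ Bad p}) + c) :=
            mul_le_mul_of_nonneg_left h1 (hs0 p)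
        _ = s p * P.real (A ∩ {ω | Wd T a' R p ω ∈ Bad p}) + s p * c := by ring
        _ ≤ s p * P.real (A ∩ {ω | Wd T a' R p ω ∈ Bad p}) + c := by
            gcongr
            exact mul_le_of_le_one_left hc0 (hs1 p)
    unfold La
    have e := uadd _ (fun _ => c) (vb a' A) (cb c)
    rw [uconst] at e
    rw [← e]
    refine umono _ _ (vb a A) ?_ (Eventually.of_forall fun m => ?_)
    · obtain ⟨C, hC⟩ := vb a' A
      exact ⟨C + |c|, fun m => (abs_add_le _ _).trans (by have := hC m; gcongr)⟩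
    · refine (avg_mono m _ _ key).trans ?_
      rw [avg_add]
      gcongr
      exact avg_const m c hc0

end Pool.Agent.H56.LF.LAB
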